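import Mathlib

/-! Interface of project SR (MP_60edde_al): the stable reflection length is rational for virtually
free Coxeter groups. -/

set_option autoImplicit false

namespace Pool.Agent.K1H22.SR

open CoxeterSystem

/-- the reflection length -/
noncomputable def rl {B W : Type} [Group W] {M : CoxeterMatrix B} (cs : CoxeterSystem M W) (w : W) :
    ℕ :=
  sInf {n : ℕ | ∃ l : List W, l.length = n ∧ (∀ t ∈ l, cs.IsReflection t) ∧ l.prod = w}

/-- the theorem of Dyer for arbitrary words: the reflection length is the least number of letters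
whose deletion gives a word for `1` -/
def S_DYER : Prop := ∀ (B W : Type) [Fintype B] [DecidableEq B] [Group W] (M : CoxeterMatrix B)
  (cs : CoxeterSystem M W) (ω : List B),
  (∀ u : List B, u.Sublist ω → cs.wordProd u = 1 →
    rl cs (cs.wordProd ω) + u.length ≤ ω.length) ∧
  ∃ u : List B, u.Sublist ω ∧ cs.wordProd u = 1 ∧ rl cs (cs.wordProd ω) + u.length = ω.length

/-! ### finite binary systems -/

/-- the weights derived from a nonterminal -/
inductive Der {Q : Type} (R : Finset (Q × Q × Q)) (Bs : Finset (Q × (ℕ × ℕ))) : Q → ℕ × ℕ → Prop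
  | base {X : Q} {v : ℕ × ℕ} : (X, v) ∈ Bs → Der R Bs X v
  | node {X Y Z : Q} {a b : ℕ × ℕ} : (X, Y, Z) ∈ R → Der R Bs Y a → Der R Bs Z b →
      Der R Bs X (a + b)

/-- the weights of the contexts from `X` to the hole `H` -/
inductive Ctx {Q : Type} (R : Finset (Q × Q × Q)) (Bs : Finset (Q × (ℕ × ℕ))) :
    Q → Q → ℕ × ℕ → Prop
  | refl {X : Q} : Ctx R Bs X X 0
  | left {X Y Z H : Q} {a b : ℕ × ℕ} : (X, Y, Z) ∈ R → Ctx R Bs Y H a → Der R Bs Z b →
      Ctx R Bs X H (a + b)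
  | right {X Y Z H : Q} {a b : ℕ × ℕ} : (X, Y, Z) ∈ R → Der R Bs Y a → Ctx R Bs Z H b →
      Ctx R Bs X H (a + b)

/-- every derived weight is a small one plus weights of loops in a finite set -/
def S_PUMP : Prop := ∀ (Q : Type) (R : Finset (Q × Q × Q)) (Bs : Finset (Q × (ℕ × ℕ))),
  ∃ (Lp : Finset (Q × (ℕ × ℕ))) (C : ℕ),
    (∀ x ∈ Lp, Ctx R Bs x.1 x.1 x.2) ∧
    ∀ (X : Q) (v : ℕ × ℕ), Der R Bs X v → ∃ (v0 : ℕ × ℕ) (L : List (Q × (ℕ × ℕ))), v0.1 ≤ C ∧
      (∀ x ∈ L, x ∈ Lp ∧ (∃ a, Ctx R Bs X x.1 a) ∧ ∃ b, Der R Bs x.1 b) ∧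
      v = v0 + (L.map Prod.snd).sum

/-- the extremal slope is rational -/
def S_SLOPE : Prop := ∀ (Q : Type) (R : Finset (Q × Q × Q)) (Bs : Finset (Q × (ℕ × ℕ))) (X0 : Q)
  (s : ℝ), (∀ n d : ℕ, Der R Bs X0 (n, d) → s * n ≤ d) →
  (∀ ε : ℝ, 0 < ε → ∀ N : ℕ, ∃ n d : ℕ, N ≤ n ∧ Der R Bs X0 (n, d) ∧ (d : ℝ) ≤ (s + ε) * n) →
  ∃ q : ℚ, s = (q : ℝ)

/-! ### paths -/

/-- paths with a word in the letters of a free group and a weight; a transition has at most one
letter -/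
inductive Pth {T X : Type} (Tr : Finset (T × Option (X × Bool) × (ℕ × ℕ) × T)) :
    T → T → List (X × Bool) → ℕ × ℕ → Prop
  | nil {p : T} : Pth Tr p p [] 0
  | eps {p p' q : T} {l : List (X × Bool)} {v w : ℕ × ℕ} : (p, none, v, p') ∈ Tr →
      Pth Tr p' q l w → Pth Tr p q l (v + w)
  | letter {p p' q : T} {a : X × Bool} {l : List (X × Bool)} {v w : ℕ × ℕ} :
      (p, some a, v, p') ∈ Tr → Pth Tr p' q l w → Pth Tr p q (a :: l) (v + w)

/-- the weights of the closed paths with trivial label form a binary system -/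
def S_AUT : Prop := ∀ (T X : Type) (Tr : Finset (T × Option (X × Bool) × (ℕ × ℕ) × T)) (t0 : T),
  ∃ (Q : Type) (R : Finset (Q × Q × Q)) (Bs : Finset (Q × (ℕ × ℕ))) (X0 : Q), ∀ v : ℕ × ℕ,
    Der R Bs X0 v ↔ ∃ l, Pth Tr t0 t0 l v ∧ FreeGroup.mk l = 1

/-- paths whose labels are elements of a group -/
inductive GP {T K : Type} [Group K] (E : Finset (T × K × (ℕ × ℕ) × T)) :
    T → T → K → ℕ × ℕ → Prop
  | nil {p : T} : GP E p p 1 0
  | cons {p p' q : T} {g h : K} {v w : ℕ × ℕ} : (p, g, v, p') ∈ E → GP E p' q h w →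
      GP E p q (g * h) (v + w)

/-- subdivision of the labels into letters -/
def S_LET : Prop := ∀ (T X : Type) (E : Finset (T × FreeGroup X × (ℕ × ℕ) × T)) (t0 : T),
  ∃ (T' : Type) (Tr : Finset (T' × Option (X × Bool) × (ℕ × ℕ) × T')) (t1 : T'),
    ∀ v : ℕ × ℕ, (∃ l, Pth Tr t1 t1 l v ∧ FreeGroup.mk l = 1) ↔ GP E t0 t0 1 v

/-- `n` periods and `d` deletions -/
def Del {G B : Type} [Group G] (f : B → G) (ω : List B) (n d : ℕ) : Prop :=
  ∃ u : List B, u.Sublist (List.replicate n ω).flatten ∧ (u.map f).prod = 1 ∧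
    u.length + d = n * ω.length

/-- the deletions in the powers of a word as paths, for a virtually free group -/
def S_COS : Prop := ∀ (G B : Type) [Group G] (f : B → G) (ω : List B), ω ≠ [] →
  (∃ F : Subgroup G, F.FiniteIndex ∧ IsFreeGroup F) →
  ∃ (T X : Type) (E : Finset (T × FreeGroup X × (ℕ × ℕ) × T)) (t0 : T), ∀ n d : ℕ,
    GP E t0 t0 1 (n, d) ↔ Del f ω n d

/-- the theorem -/
def S_MAIN : Prop := ∀ (B W : Type) [Fintype B] [DecidableEq B] [Group W] (M : CoxeterMatrix B)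
  (cs : CoxeterSystem M W), (∃ F : Subgroup W, F.FiniteIndex ∧ IsFreeGroup F) → ∀ w : W,
  ∃ q : ℚ, Filter.Tendsto (fun n : ℕ => (rl cs (w ^ n) : ℝ) / n) Filter.atTop (nhds (q : ℝ))

end Pool.Agent.K1H22.SR
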