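import Mathlib
import Pool.Agent.K1H22.SR.Stm

/-! Interface of part 2 of project SR (MP_60edde_al): the stable reflection length is rational for
Coxeter groups in the least class of groups closed under free products, products with `ℤ` and finite
extensions. -/

set_option autoImplicit false

namespace Pool.Agent.K1H22.SR2

open Pool.Agent.K1H22.SR

/-- paths whose labels are elements of a group, with weights in a commutative monoid -/
inductive GW {T K M : Type} [Group K] [AddCommMonoid M] (E : Finset (T × K × M × T)) :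
    T → T → K → M → Prop
  | nil {p : T} : GW E p p 1 0
  | cons {p p' q : T} {g h : K} {v w : M} : (p, g, v, p') ∈ E → GW E p' q h w →
      GW E p q (g * h) (v + w)

/-- the weights of the closed paths with trivial label are semilinear -/
def SLP (K : Type) [Group K] : Prop := ∀ (M T : Type) [AddCommMonoid M] [AddMonoid.FG M] [Finite T]
  (E : Finset (T × K × M × T)) (p q : T), IsSemilinearSet {v : M | GW E p q 1 v}

/-! ### semilinear systems -/

/-- the elements derived from a variable: a production has a weight and a number of children of each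
kind -/
inductive Ded {M J : Type} [AddCommMonoid M] [DecidableEq J] (L : J → Set (M × (J → ℕ))) :
    J → M → Prop
  | mk {j : J} (x : M × (J → ℕ)) (l : List (J × M)) : x ∈ L j → (∀ p ∈ l, Ded L p.1 p.2) →
      (∀ i : J, (l.map Prod.fst).count i = x.2 i) → Ded L j (x.1 + (l.map Prod.snd).sum)

/-- one variable -/
inductive One {M : Type} [AddCommMonoid M] (L : Set (M × ℕ)) : M → Prop
  | mk (x : M × ℕ) (l : List M) : x ∈ L → (∀ v ∈ l, One L v) → l.length = x.2 →
      One L (x.1 + l.sum)

/-- substitution, one variable -/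
def S_SUB1 : Prop := ∀ (M : Type) [AddCommMonoid M] [AddMonoid.FG M] (D : Set M)
  (L : Set (M × ℕ)), IsSemilinearSet D → IsSemilinearSet L →
  IsSemilinearSet {v : M | ∃ x ∈ L, ∃ l : List M, (∀ p ∈ l, p ∈ D) ∧ l.length = x.2 ∧
    v = x.1 + l.sum}

/-- Parikh's theorem for one variable -/
def S_ONE : Prop := ∀ (M : Type) [AddCommMonoid M] [AddMonoid.FG M] (L : Set (M × ℕ)),
  IsSemilinearSet L → IsSemilinearSet {v : M | One L v}

/-- derivations in which exactly the children of a kind in `A` are expanded -/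
inductive DA {M J : Type} [AddCommMonoid M] [DecidableEq J] (L : J → Set (M × (J → ℕ)))
    (A : Finset J) : J → M × (J → ℕ) → Prop
  | mk {j : J} (x : M × (J → ℕ)) (l : List (J × (M × (J → ℕ)))) : x ∈ L j → (∀ p ∈ l, p.1 ∈ A) →
      (∀ p ∈ l, DA L A p.1 p.2) → (∀ i ∈ A, (l.map Prod.fst).count i = x.2 i) →
      DA L A j ((x.1, fun i => if i ∈ A then 0 else x.2 i) + (l.map Prod.snd).sum)

/-- elimination of one more variable -/
def S_ELIM : Prop := ∀ (M J : Type) [AddCommMonoid M] [DecidableEq J]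
  (L : J → Set (M × (J → ℕ))) (A : Finset J) (a : J), a ∉ A → ∀ (j : J) (y : M × (J → ℕ)),
  DA L (insert a A) j y ↔ ∃ z, DA L A j z ∧ ∃ lx : List (M × (J → ℕ)),
    (∀ u ∈ lx, One {w : (M × (J → ℕ)) × ℕ | ∃ z, DA L A a z ∧
      w = ((z.1, fun i => if i = a then 0 else z.2 i), z.2 a)} u) ∧
    lx.length = z.2 a ∧ y = (z.1, fun i => if i = a then 0 else z.2 i) + lx.sum

/-- Parikh's theorem for semilinear systems -/
def S_LFP : Prop := ∀ (M J : Type) [AddCommMonoid M] [AddMonoid.FG M] [Finite J] [DecidableEq J]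
  (L : J → Set (M × (J → ℕ))), (∀ j, IsSemilinearSet (L j)) → ∀ j, IsSemilinearSet {v : M | Ded L j v}

/-! ### the closure properties -/

def S_UNIT : Prop := SLP Unit

def S_PRODZ : Prop := ∀ (K : Type) [Group K], SLP K → SLP (K × Multiplicative ℤ)

def S_EXT : Prop := ∀ (K G : Type) [Group K] [Group G] (φ : K →* G), Function.Injective φ →
  φ.range.FiniteIndex → SLP K → SLP G

/-- paths whose labels are words in the elements of the factors -/
inductive LP {T I M : Type} {K : I → Type} [AddCommMonoid M]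
    (E : Finset (T × (Σ i, K i) × M × T)) : T → T → List (Σ i, K i) → M → Prop
  | nil {p : T} : LP E p p [] 0
  | cons {p p' q : T} {a : Σ i, K i} {l : List (Σ i, K i)} {v w : M} : (p, a, v, p') ∈ E →
      LP E p' q l w → LP E p q (a :: l) (v + w)

/-- subdivision of the labels in a free product into letters -/
def S_LETI : Prop := ∀ (I : Type) [Finite I] [Nonempty I] (K : I → Type) [∀ i, Group (K i)]
  (M T : Type) [AddCommMonoid M] [Finite T] (E : Finset (T × Monoid.CoprodI K × M × T)) (p q : T),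
  ∃ (T' : Type) (_ : Finite T') (E' : Finset (T' × (Σ i, K i) × M × T')) (p' q' : T'), ∀ v : M,
    GW E p q 1 v ↔ ∃ l, LP E' p' q' l v ∧
      (l.map (fun a : Σ i, K i => (Monoid.CoprodI.of a.2 : Monoid.CoprodI K))).prod = 1

/-- the paths with label in a factor: letters of the factor and null paths -/
inductive Mi {T I M : Type} {K : I → Type} [∀ i, Group (K i)] [AddCommMonoid M]
    (E : Finset (T × (Σ i, K i) × M × T)) : T → T → (i : I) → K i → M → Prop
  | nil {p : T} {i : I} : Mi E p p i 1 0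
  | letter {p q r : T} {i : I} {a g : K i} {v w : M} : (p, ⟨i, a⟩, v, q) ∈ E → Mi E q r i g w →
      Mi E p r i (a * g) (v + w)
  | jump {p q r : T} {i j : I} {g : K i} {v w : M} : Mi E p q j 1 v → Mi E q r i g w →
      Mi E p r i g (v + w)

/-- the structure of the paths with trivial label -/
def S_NUL : Prop := ∀ (I : Type) [Nonempty I] (K : I → Type) [∀ i, Group (K i)] (M T : Type)
  [AddCommMonoid M] (E : Finset (T × (Σ i, K i) × M × T)) (p q : T) (v : M),
  (∃ l, LP E p q l v ∧
    (l.map (fun a : Σ i, K i => (Monoid.CoprodI.of a.2 : Monoid.CoprodI K))).prod = 1) ↔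
  ∃ i, Mi E p q i 1 v

/-- the paths with trivial label are semilinear -/
def S_FIX : Prop := ∀ (I : Type) [Finite I] (K : I → Type) [∀ i, Group (K i)] (M T : Type)
  [AddCommMonoid M] [AddMonoid.FG M] [Finite T] (E : Finset (T × (Σ i, K i) × M × T)),
  (∀ i, SLP (K i)) → ∀ (p q : T) (i : I), IsSemilinearSet {v : M | Mi E p q i 1 v}

def S_FREE : Prop := ∀ (I : Type) [Finite I] (K : I → Type) [∀ i, Group (K i)], (∀ i, SLP (K i)) →
  SLP (Monoid.CoprodI K)

/-! ### the theorem -/

/-- the extremal slope of a semilinear set is rational -/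
def S_SLOPE2 : Prop := ∀ (D : Set (ℕ × ℕ)) (s : ℝ), IsSemilinearSet D →
  (∀ n d : ℕ, (n, d) ∈ D → s * n ≤ d) →
  (∀ ε : ℝ, 0 < ε → ∀ N : ℕ, ∃ n d : ℕ, N ≤ n ∧ (n, d) ∈ D ∧ (d : ℝ) ≤ (s + ε) * n) →
  ∃ q : ℚ, s = (q : ℝ)

/-- the deletions in the powers of a word as paths -/
def S_COS2 : Prop := ∀ (G B : Type) [Group G] (f : B → G) (ω : List B), ω ≠ [] →
  ∃ (T : Type) (_ : Finite T) (E : Finset (T × G × (ℕ × ℕ) × T)) (t0 : T), ∀ n d : ℕ,
    GW E t0 t0 1 (n, d) ↔ Del f ω n d

def S_MAIN2 : Prop := ∀ (B W : Type) [Fintype B] [DecidableEq B] [Group W] (M : CoxeterMatrix B)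
  (cs : CoxeterSystem M W), SLP W → ∀ w : W,
  ∃ q : ℚ, Filter.Tendsto (fun n : ℕ => (rl cs (w ^ n) : ℝ) / n) Filter.atTop (nhds (q : ℝ))

end Pool.Agent.K1H22.SR2
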