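import Mathlib
import Pool.Agent.K1H22.SR.Stm2

/-! Interface of part 3 of project SR: subgroups and commuting parts. -/

set_option autoImplicit false

namespace Pool.Agent.K1H22.SR2

open Pool.Agent.K1H22.SR

def S_SG : Prop := ∀ (H G : Type) [Group H] [Group G] (φ : H →* G), Function.Injective φ →
  SLP G → SLP H

/-- only the subgroup generated by the letters of the word matters -/
def S_MAIN3 : Prop := ∀ (B W : Type) [Fintype B] [DecidableEq B] [Group W] (M : CoxeterMatrix B)
  (cs : CoxeterSystem M W) (ω : List B) (H : Subgroup W), (∀ b ∈ ω, cs.simple b ∈ H) → SLP H →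
  ∃ q : ℚ, Filter.Tendsto (fun n : ℕ => (rl cs (cs.wordProd ω ^ n) : ℝ) / n) Filter.atTop
    (nhds (q : ℝ))

/-- the reflection length is additive over commuting parts of the diagram -/
def S_ADD : Prop := ∀ (B W I : Type) [Fintype B] [DecidableEq B] [Fintype I] [DecidableEq I]
  [Group W] (M : CoxeterMatrix B) (cs : CoxeterSystem M W) (c : B → I),
  (∀ b b', c b ≠ c b' → M b b' = 2) → ∀ (ω : List B) (n : ℕ),
  rl cs (cs.wordProd ω ^ n) = ∑ i, rl cs (cs.wordProd (ω.filter (fun b => c b = i)) ^ n)

end Pool.Agent.K1H22.SR2
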