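import Mathlib
import Pool.Agent.K1H22.SR.Stm3

set_option autoImplicit false

namespace Pool.Agent.K1H22.SR2

open Pool.Agent.K1H22.SR Filter Topology

/-- The least class of groups which contains the trivial group and is closed under products with
the infinite cyclic group, free products of finitely many groups, subgroups and finite
extensions. -/
inductive Cls : (G : Type) → Group G → Prop
  | unit : Cls Unit inferInstance
  | prod {G : Type} {hG : Group G} : Cls G hG → Cls (G × Multiplicative ℤ) inferInstance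
  | free {I : Type} {K : I → Type} {hK : ∀ i, Group (K i)} : Finite I →
      (∀ i, Cls (K i) (hK i)) → Cls (Monoid.CoprodI K) inferInstance
  | sub {H G : Type} {hH : Group H} {hG : Group G} (φ : H →* G) : Function.Injective φ →
      Cls G hG → Cls H hH
  | ext {G H : Type} {hG : Group G} {hH : Group H} (φ : G →* H) : Function.Injective φ →
      φ.range.FiniteIndex → Cls G hG → Cls H hH

theorem Cls.slp (hU : S_UNIT) (hP : S_PRODZ) (hE : S_EXT) (hF : S_FREE) (hS : S_SG) {G : Type}
    {hG : Group G} (h : Cls G hG) : SLP G := by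
  induction h with
  | unit => exact hU
  | prod _ ih => exact hP _ ih
  | free hI _ ih => exact hF _ _ ih
  | sub φ h1 _ ih => exact hS _ _ φ h1 ih
  | ext φ h1 h2 _ ih => exact hE _ _ φ h1 h2 ih

/-- products of the parts -/
theorem parts (h3 : S_MAIN3) (h4 : S_ADD) {B W I : Type} [Finite B] [Finite I] [Group W]
    {M : CoxeterMatrix B} (cs : CoxeterSystem M W) (c : B → I)
    (hc : ∀ b b', c b ≠ c b' → M b b' = 2)
    (h : ∀ i, SLP (Subgroup.closure (cs.simple '' {b | c b = i}))) (w : W) :
    ∃ q : ℚ, Tendsto (fun n : ℕ => (rl cs (w ^ n) : ℝ) / n) atTop (𝓝 (q : ℝ)) := by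
  classical
  have := Fintype.ofFinite B
  have := Fintype.ofFinite I
  obtain ⟨ω, rfl⟩ := cs.wordProd_surjective w
  have key : ∀ i : I, ∃ q : ℚ, Tendsto (fun n : ℕ =>
      (rl cs (cs.wordProd (ω.filter (fun b => c b = i)) ^ n) : ℝ) / n) atTop (𝓝 (q : ℝ)) := by
    intro i
    refine h3 B W M cs _ _ ?_ (h i)
    intro b hb
    refine Subgroup.subset_closure ⟨b, ?_, rfl⟩
    simpa using (List.mem_filter.mp hb).2
  choose q hq using key
  refine ⟨∑ i, q i, ?_⟩
  have h5 : (fun n : ℕ => (rl cs (cs.wordProd ω ^ n) : ℝ) / n) = fun n : ℕ =>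
      ∑ i, (rl cs (cs.wordProd (ω.filter (fun b => c b = i)) ^ n) : ℝ) / n := by
    funext n
    rw [h4 B W I M cs c hc ω n, Nat.cast_sum, Finset.sum_div]
  rw [h5]
  push_cast
  exact tendsto_finset_sum _ (fun i _ => hq i)

end Pool.Agent.K1H22.SR2
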