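import Mathlib
import Pool.Agent.K1H22.SR.Stm3

/-! Interface of part 4 of project SR: quasi-linearity. -/

set_option autoImplicit false

namespace Pool.Agent.K1H22.SR2

open Pool.Agent.K1H22.SR

/-- first half of the quasi-linearity -/
def S_QL1 : Prop := ∀ (D : Set (ℕ × ℕ)) (f : ℕ → ℕ), IsSemilinearSet D → (∀ n, (n, f n) ∈ D) →
  (∀ n d, (n, d) ∈ D → f n ≤ d) → (∀ m n, f (m + n) ≤ f m + f n) →
  ∃ P c N : ℕ, 0 < P ∧ (∀ n, N ≤ n → f (n + P) ≤ f n + c) ∧ ∀ n k : ℕ, c * k ≤ f (n + k * P)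

def S_QL : Prop := ∀ (D : Set (ℕ × ℕ)) (f : ℕ → ℕ), IsSemilinearSet D → (∀ n, (n, f n) ∈ D) →
  (∀ n d, (n, d) ∈ D → f n ≤ d) → (∀ m n, f (m + n) ≤ f m + f n) →
  ∃ P c N : ℕ, 0 < P ∧ ∀ n, N ≤ n → f (n + P) = f n + c

def S_MAIN4 : Prop := ∀ (B W : Type) [Fintype B] [DecidableEq B] [Group W] (M : CoxeterMatrix B)
  (cs : CoxeterSystem M W) (ω : List B) (H : Subgroup W), (∀ b ∈ ω, cs.simple b ∈ H) → SLP H →
  ∃ P c N : ℕ, 0 < P ∧ ∀ n, N ≤ n →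
    rl cs (cs.wordProd ω ^ (n + P)) = rl cs (cs.wordProd ω ^ n) + c

end Pool.Agent.K1H22.SR2
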