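import Mathlib
import Pool.Agent.K1H22.SR.Stm4

set_option autoImplicit false

namespace Pool.Agent.K1H22.SR2

open Pool.Agent.K1H22.SR Filter Topology

theorem t_QL (h : S_QL1) : S_QL := by
  intro D f hD h1 h2 h3
  obtain ⟨P, c, N, hP, hle, hlow⟩ := h D f hD h1 h2 h3
  have key : ∀ r : ℕ, ∃ K, ∀ k, K ≤ k → f (N + r + (k + 1) * P) = f (N + r + k * P) + c := by
    intro r
    have hstep : ∀ k, f (N + r + (k + 1) * P) ≤ f (N + r + k * P) + c := by
      intro k
      have h4 := hle (N + r + k * P) (by omega)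
      have h5 : N + r + k * P + P = N + r + (k + 1) * P := by ring
      rwa [h5] at h4
    have hlo : ∀ k, c * k ≤ f (N + r + k * P) := fun k => hlow (N + r) k
    have hanti : ∀ k j, f (N + r + (k + j) * P) - c * (k + j) ≤ f (N + r + k * P) - c * k := by
      intro k j
      induction j with
      | zero => simp
      | succ j ih =>
        refine le_trans ?_ ih
        have h6 := hstep (k + j)
        have h7 : (k + (j + 1)) = (k + j) + 1 := by omega
        rw [h7, Nat.mul_succ]
        omega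
    obtain ⟨K, hK⟩ : ∃ K, ∀ k, f (N + r + K * P) - c * K ≤ f (N + r + k * P) - c * k := by
      obtain ⟨m, ⟨K, rfl⟩, hm⟩ := WellFounded.has_min (wellFounded_lt (α := ℕ))
        (Set.range fun k => f (N + r + k * P) - c * k) ⟨_, 0, rfl⟩
      exact ⟨K, fun k => not_lt.mp (hm _ ⟨k, rfl⟩)⟩
    refine ⟨K, fun k hk => ?_⟩
    obtain ⟨j, rfl⟩ := Nat.exists_eq_add_of_le hk
    have a1 := hanti K j
    have a2 := hK (K + j + 1)
    have a3 := hstep (K + j)
    have a4 := hlo (K + j)
    have a5 := hlo (K + j + 1)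
    have a6 : c * (K + j + 1) = c * (K + j) + c := by ring
    omega
  choose K hK using key
  refine ⟨P, c, N + (∑ r ∈ Finset.range P, K r) * P, hP, fun n hn => ?_⟩
  have h5 : (n - N) % P < P := Nat.mod_lt _ hP
  have h6 : n = N + (n - N) % P + (n - N) / P * P := by
    have := Nat.mod_add_div (n - N) P
    rw [Nat.mul_comm] at this
    have h7 : N ≤ n := le_trans (Nat.le_add_right _ _) hn
    omega
  have h8 : K ((n - N) % P) ≤ ∑ r ∈ Finset.range P, K r :=
    Finset.single_le_sum (f := K) (fun i _ => Nat.zero_le _) (Finset.mem_range.mpr h5)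
  have h9 : ∑ r ∈ Finset.range P, K r ≤ (n - N) / P := by
    rw [Nat.le_div_iff_mul_le hP]
    omega
  have h10 := hK ((n - N) % P) ((n - N) / P) (h8.trans h9)
  have h11 : n + P = N + (n - N) % P + ((n - N) / P + 1) * P := by
    rw [Nat.add_mul, Nat.one_mul]
    omega
  rw [h11, h10, ← h6]

theorem iter {f : ℕ → ℕ} {P c N : ℕ} (h : ∀ n, N ≤ n → f (n + P) = f n + c) (k : ℕ) :
    ∀ n, N ≤ n → f (n + k * P) = f n + k * c := by
  induction k with
  | zero => intro n _; simp
  | succ k ih =>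
    intro n hn
    have h1 : n + (k + 1) * P = (n + k * P) + P := by ring
    rw [h1, h _ (by omega), ih n hn]
    ring

theorem parts4 (h3 : S_MAIN4) (h4 : S_ADD) {B W I : Type} [Finite B] [Finite I] [Group W]
    {M : CoxeterMatrix B} (cs : CoxeterSystem M W) (c : B → I)
    (hc : ∀ b b', c b ≠ c b' → M b b' = 2)
    (h : ∀ i, SLP (Subgroup.closure (cs.simple '' {b | c b = i}))) (w : W) :
    ∃ P e N : ℕ, 0 < P ∧ ∀ n, N ≤ n → rl cs (w ^ (n + P)) = rl cs (w ^ n) + e := by
  classical
  have := Fintype.ofFinite B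
  have := Fintype.ofFinite I
  obtain ⟨ω, rfl⟩ := cs.wordProd_surjective w
  have key : ∀ i : I, ∃ P e N : ℕ, 0 < P ∧ ∀ n, N ≤ n →
      rl cs (cs.wordProd (ω.filter (fun b => c b = i)) ^ (n + P)) =
      rl cs (cs.wordProd (ω.filter (fun b => c b = i)) ^ n) + e := by
    intro i
    refine h3 B W M cs _ _ ?_ (h i)
    intro b hb
    refine Subgroup.subset_closure ⟨b, ?_, rfl⟩
    simpa using (List.mem_filter.mp hb).2
  choose P e N hP hq using key
  refine ⟨∏ i, P i, ∑ i, (∏ j ∈ Finset.univ.erase i, P j) * e i, ∑ i, N i,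
    Finset.prod_pos (fun i _ => hP i), fun n hn => ?_⟩
  rw [h4 B W I M cs c hc ω, h4 B W I M cs c hc ω, ← Finset.sum_add_distrib]
  refine Finset.sum_congr rfl (fun i _ => ?_)
  have h5 : ∏ j, P j = (∏ j ∈ Finset.univ.erase i, P j) * P i :=
    (Finset.prod_erase_mul _ _ (Finset.mem_univ i)).symm
  rw [h5]
  refine iter (f := fun n => rl cs (cs.wordProd (ω.filter (fun b => c b = i)) ^ n)) (hq i) _ n ?_
  exact le_trans (Finset.single_le_sum (f := N) (fun i _ => Nat.zero_le _) (Finset.mem_univ i)) hn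

theorem limit_eq {f : ℕ → ℕ} {P e N : ℕ} (hP : 0 < P) (h : ∀ n, N ≤ n → f (n + P) = f n + e)
    {q : ℝ} (hq : Tendsto (fun n : ℕ => (f n : ℝ) / n) atTop (𝓝 q)) : q = (e : ℝ) / P := by
  have h1 : Tendsto (fun k : ℕ => N + k * P) atTop atTop := by
    refine tendsto_atTop_mono (fun k => ?_) tendsto_id
    have : k ≤ k * P := Nat.le_mul_of_pos_right k hP
    simp only [id]
    omega
  have h2 := hq.comp h1
  have hPr : (0 : ℝ) < P := Nat.cast_pos.mpr hP
  have h3 : Tendsto (fun k : ℕ => ((f N : ℝ) / k + e) / ((N : ℝ) / k + P)) atTop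
      (𝓝 ((0 + (e : ℝ)) / (0 + P))) := by
    refine Tendsto.div ?_ ?_ (by positivity)
    · exact (tendsto_const_div_atTop_nhds_zero_nat _).add tendsto_const_nhds
    · exact (tendsto_const_div_atTop_nhds_zero_nat _).add tendsto_const_nhds
  rw [zero_add, zero_add] at h3
  refine tendsto_nhds_unique h2 (h3.congr' ?_)
  filter_upwards [eventually_gt_atTop 0] with k hk
  have hk' : (0 : ℝ) < k := Nat.cast_pos.mpr hk
  simp only [Function.comp]
  rw [iter h k N le_rfl]
  push_cast
  field_simp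
  try ring

end Pool.Agent.K1H22.SR2
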