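import Mathlib
import Pool.Agent.K1H22.SR.Stm2

set_option autoImplicit false

namespace Pool.Agent.K1H22.SR2

theorem t_FREE (hU : S_UNIT) (hE : S_EXT) (hL : S_LETI) (hN : S_NUL) (hF : S_FIX) : S_FREE := by
  intro I _ K _ h
  by_cases hI : Nonempty I
  · intro M T _ _ _ E p q
    obtain ⟨T', hT', E', p', q', h'⟩ := hL I K M T E p q
    have he : {v : M | GW E p q 1 v} = ⋃ i, {v : M | Mi E' p' q' i 1 v} := by
      ext v
      rw [Set.mem_iUnion]
      exact (h' v).trans (hN I K M T' E' p' q' v)
    rw [he]
    exact IsSemilinearSet.iUnion (fun i => hF I K M T' E' h p' q' i)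
  · have hI' : IsEmpty I := not_nonempty_iff.mp hI
    have hs : Subsingleton (Monoid.CoprodI K) := by
      refine ⟨fun a b => ?_⟩
      have h1 : ∀ a : Monoid.CoprodI K, a = 1 := by
        intro a
        induction a using Monoid.CoprodI.induction_on with
        | one => rfl
        | of i m => exact (hI'.false i).elim
        | mul x y hx hy => rw [hx, hy, one_mul]
      rw [h1 a, h1 b]
    refine hE Unit (Monoid.CoprodI K) 1 (fun a b _ => rfl) ?_ hU
    have ht : (1 : Unit →* Monoid.CoprodI K).range = ⊤ := by
      ext x
      simp [Subsingleton.elim x 1]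
    rw [ht]
    infer_instance

/-- The least class of groups which contains the trivial group and is closed under products with
the infinite cyclic group, free products of finitely many groups and finite extensions. -/
inductive InClass : (G : Type) → Group G → Prop
  | unit : InClass Unit inferInstance
  | prod {G : Type} {hG : Group G} : InClass G hG → InClass (G × Multiplicative ℤ) inferInstance
  | free {I : Type} {K : I → Type} {hK : ∀ i, Group (K i)} : Finite I →
      (∀ i, InClass (K i) (hK i)) → InClass (Monoid.CoprodI K) inferInstance
  | ext {G H : Type} {hG : Group G} {hH : Group H} (φ : G →* H) : Function.Injective φ →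
      φ.range.FiniteIndex → InClass G hG → InClass H hH

theorem InClass.slp (hU : S_UNIT) (hP : S_PRODZ) (hE : S_EXT) (hF : S_FREE) {G : Type}
    {hG : Group G} (h : InClass G hG) : SLP G := by
  induction h with
  | unit => exact hU
  | prod _ ih => exact hP _ ih
  | free hI _ ih => exact hF _ _ ih
  | ext φ h1 h2 _ ih => exact hE _ _ φ h1 h2 ih

theorem InClass.equiv {G H : Type} {hG : Group G} {hH : Group H} (e : G ≃* H)
    (h : InClass G hG) : InClass H hH := by
  refine InClass.ext (e : G →* H) e.injective ?_ h
  have ht : (e : G →* H).range = ⊤ := MonoidHom.range_eq_top.mpr e.surjective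
  rw [ht]
  infer_instance

theorem InClass.int : InClass (Multiplicative ℤ) inferInstance := by
  refine InClass.equiv (G := Unit × Multiplicative ℤ) ?_ (InClass.prod InClass.unit)
  exact MulEquiv.uniqueProd

theorem InClass.freeGroupUnit : InClass (FreeGroup Unit) inferInstance := by
  refine InClass.equiv ?_ InClass.int
  exact (FreeGroup.mulEquivIntOfUnique (α := Unit)).symm

theorem InClass.freeGroup (X : Type) [Finite X] : InClass (FreeGroup X) inferInstance := by
  refine InClass.equiv ?_ (InClass.free (I := X) (K := fun _ => FreeGroup Unit) inferInstance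
    (fun _ => InClass.freeGroupUnit))
  exact (freeGroupEquivCoprodI (ι := X)).symm

end Pool.Agent.K1H22.SR2
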