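import Mathlib
import Pool.Agent.K1H22.SR.Free2

set_option autoImplicit false

namespace Pool.Agent.K1H22.SR2

theorem finite_of_fg (X : Type) [h : Group.FG (FreeGroup X)] : Finite X := by
  classical
  obtain ⟨S, hS⟩ := h.out
  have h1 : Finite (FreeGroup X →* Multiplicative (ZMod 2)) := by
    refine Finite.of_injective (fun f => fun s : S => f s) ?_
    intro f g hfg
    refine MonoidHom.eq_of_eqOn_dense hS ?_
    intro x hx
    exact congrFun hfg ⟨x, hx⟩
  have h2 : Finite (X → Multiplicative (ZMod 2)) :=
    Finite.of_equiv _ (FreeGroup.lift (α := X) (β := Multiplicative (ZMod 2))).symm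
  refine Finite.of_injective (fun x : X => (fun y : X =>
    if y = x then Multiplicative.ofAdd (1 : ZMod 2) else 1)) ?_
  intro x y hxy
  by_contra hne
  have h3 := congrFun hxy x
  simp only [if_true, if_neg hne] at h3
  exact absurd h3 (by decide)

theorem coxeter_fg {B W : Type} [Finite B] [Group W] {M : CoxeterMatrix B} (cs : CoxeterSystem M W) :
    Group.FG W := by
  rw [Group.fg_iff]
  refine ⟨Set.range cs.simple, ?_, Set.finite_range _⟩
  exact cs.subgroup_closure_range_simple

theorem InClass.of_virtually_free {W : Type} [hW : Group W] [Group.FG W]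
    (h : ∃ F : Subgroup W, F.FiniteIndex ∧ IsFreeGroup F) : InClass W hW := by
  obtain ⟨F, hF, hfree⟩ := h
  have h1 : Group.FG F := Subgroup.fg_of_index_ne_zero F
  have e : F ≃* FreeGroup (IsFreeGroup.Generators F) := IsFreeGroup.toFreeGroup F
  have h2 : Group.FG (FreeGroup (IsFreeGroup.Generators F)) := Group.fg_of_surjective (f := e.toMonoidHom) e.surjective
  have h3 : Finite (IsFreeGroup.Generators F) := finite_of_fg _
  have h4 : InClass F inferInstance := InClass.equiv e.symm (InClass.freeGroup _)
  refine InClass.ext F.subtype F.subtype_injective ?_ h4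
  rw [Subgroup.range_subtype]
  exact hF

end Pool.Agent.K1H22.SR2
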